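import Pool.Agent.W428.EG.LabX

/-!
Project EG: the logarithmic average is small (S_MAINX), port of `W370.EX.MainX`.
-/

set_option autoImplicit false

namespace Pool.Agent.W428.EG

open Finset Filter
open Pool.Agent.W78.GA (Qd nm prim dt ip lat pball ball edge dedge)
open Pool.Agent.W78.EC (Tr av)
open Pool.Agent.W251.GX (Cm)
open Pool.Agent.W78.EG

variable {t c : ℤ} {f : ℕ} {χ : DirichletCharacter ℂ f}

theorem PQ_mem {Q p : ℕ} (h : p ∈ PQ χ Q) :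
    Q < p ∧ p ≤ 2 * Q ∧ p.Prime ∧ χ (p : ZMod f) = 1 := by
  unfold PQ at h
  rw [mem_filter, mem_Ioc] at h
  exact ⟨h.1.1, h.1.2, h.2.1, h.2.2⟩

theorem log_nonneg_PQ {Q p : ℕ} (_hp : p ∈ PQ χ Q) : 0 ≤ Real.log p :=
  Real.log_natCast_nonneg p

/-- a prime with `χ = 1` is the norm of an element -/
theorem exists_pi (hF : Fd t c f χ) {p : ℕ} (hp : p.Prime) (h : χ (p : ZMod f) = 1) :
    ∃ (π : Qd t c) (r : ℤ), nm π = p ∧ lat p r π ∧ (p : ℤ) ∣ r ^ 2 - t * r + c := by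
  have h1 : χ (p : ZMod f) ≠ -1 := by
    rw [h]
    norm_num
  obtain ⟨r, hr⟩ := (hF.root p hp).2 h1
  obtain ⟨z, hz, hz2, -⟩ := hF.red p r hp.one_lt.le hr
  exact ⟨z, r, hz, hz2, hr⟩

theorem harm_le (N : ℕ) : ∑ X ∈ Icc 1 N, 1 / (X : ℝ) ≤ 1 + Real.log N := by
  have h := harmonic_le_one_add_log N
  rw [harmonic_eq_sum_Icc] at h
  push_cast at h
  simpa only [one_div] using h

/-- splitting of the sum over `X` -/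
theorem sum_split (h D G : ℕ → ℝ) {X₀ X₁ N : ℕ} {a b Λ : ℝ} (hG : ∀ X, |h X| ≤ G X)
    (hlarge : ∀ X, X₁ < X → |h X| ≤ a * D X + b * X) (hD0 : ∀ X, 0 ≤ D X) (ha : 0 ≤ a) (hb : 0 ≤ b)
    (h01 : X₀ ≤ X₁) (hζ : ∑ X ∈ Ioc X₀ N, 1 / (X : ℝ) ^ 2 * D X ≤ Λ) :
    |∑ X ∈ Icc 1 N, 1 / (X : ℝ) ^ 2 * h X| ≤ ∑ X ∈ Icc 1 X₁, 1 / (X : ℝ) ^ 2 * G X + a * Λ +
      b * (1 + Real.log N) := by
  have hG0 : ∀ X, 0 ≤ G X := fun X => (abs_nonneg _).trans (hG X)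
  have hterm : ∀ X ∈ Icc 1 N, |1 / (X : ℝ) ^ 2 * h X| ≤
      (if X ≤ X₁ then 1 / (X : ℝ) ^ 2 * G X else 0) +
      (if X₁ < X then a * (1 / (X : ℝ) ^ 2 * D X) else 0) + b * (1 / (X : ℝ)) := by
    intro X hX
    have hX1 : 1 ≤ X := (mem_Icc.1 hX).1
    have hXR : (0 : ℝ) < X := by exact_mod_cast hX1
    have hX2 : (0 : ℝ) ≤ 1 / (X : ℝ) ^ 2 := by positivity
    have hnn : 0 ≤ b * (1 / (X : ℝ)) := by positivity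
    rw [abs_mul, abs_of_nonneg hX2]
    by_cases hc1 : X ≤ X₁
    · rw [if_pos hc1, if_neg (by omega)]
      have h' := mul_le_mul_of_nonneg_left (hG X) hX2
      linarith
    · rw [if_neg hc1, if_pos (by omega)]
      have h' := mul_le_mul_of_nonneg_left (hlarge X (by omega)) hX2
      have h'' : 1 / (X : ℝ) ^ 2 * (a * D X + b * X) = 0 + a * (1 / (X : ℝ) ^ 2 * D X) +
          b * (1 / (X : ℝ)) := by
        field_simp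
        ring
      linarith
  refine (abs_sum_le_sum_abs _ _).trans ((sum_le_sum hterm).trans ?_)
  rw [sum_add_distrib, sum_add_distrib, ← mul_sum]
  have a1 : ∑ X ∈ Icc 1 N, (if X ≤ X₁ then 1 / (X : ℝ) ^ 2 * G X else 0) ≤
      ∑ X ∈ Icc 1 X₁, 1 / (X : ℝ) ^ 2 * G X := by
    rw [← sum_filter]
    refine sum_le_sum_of_subset_of_nonneg ?_ ?_
    · intro X hX
      rw [mem_filter, mem_Icc] at hX
      exact mem_Icc.2 ⟨hX.1.1, hX.2⟩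
    · intro X _ _
      exact mul_nonneg (by positivity) (hG0 X)
  have a2 : ∑ X ∈ Icc 1 N, (if X₁ < X then a * (1 / (X : ℝ) ^ 2 * D X) else 0) ≤ a * Λ := by
    rw [← sum_filter, ← mul_sum]
    refine mul_le_mul_of_nonneg_left (le_trans ?_ hζ) ha
    refine sum_le_sum_of_subset_of_nonneg ?_ ?_
    · intro X hX
      rw [mem_filter, mem_Icc] at hX
      exact mem_Ioc.2 ⟨by omega, hX.1.2⟩
    · intro X _ _
      exact mul_nonneg (by positivity) (hD0 X)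
  have a3 : b * ∑ X ∈ Icc 1 N, 1 / (X : ℝ) ≤ b * (1 + Real.log N) :=
    mul_le_mul_of_nonneg_left (harm_le N) hb
  linarith

/-- the decoupling error -/
noncomputable def Dec (χ : DirichletCharacter ℂ f) (K Q : ℕ) (X : ℝ) {A : Type} (lab : Qd t c → A)
    (ζ₁ ζ₂ : ℕ → Tr A → ℕ × ℕ × ℕ × ℕ → ℝ) : ℝ :=
  ∑ e ∈ edge t c (X / (K * Q)),
      (|∑ p ∈ PQ χ Q, Real.log p * (ζ₁ p (TT lab X e) (res p e) - av p (ζ₁ p) (TT lab X e))| +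
        |∑ p ∈ PQ χ Q, Real.log p * (ζ₂ p (TT lab X e) (res p e) - av p (ζ₂ p) (TT lab X e))|)

theorem Dec_nonneg (K Q : ℕ) (X : ℝ) {A : Type} (lab : Qd t c → A)
    (ζ₁ ζ₂ : ℕ → Tr A → ℕ × ℕ × ℕ × ℕ → ℝ) : 0 ≤ Dec χ K Q X lab ζ₁ ζ₂ :=
  sum_nonneg fun _ _ => add_nonneg (abs_nonneg _) (abs_nonneg _)

/-- the weighted sum over the primes -/
noncomputable def SX (χ : DirichletCharacter ℂ f) (g : Qd t c × Qd t c → ℂ) (s₁ s₂ s₃ s₄ : ℝ) (Q : ℕ) (X : ℝ) : ℂ :=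
  ∑ p ∈ PQ χ Q, ((Real.log p * ((p : ℝ) + 1) : ℝ) : ℂ) * AG g s₁ s₂ s₃ s₄ (X / p)

/-- the conclusion of `S_ZX` for one pair of functions -/
def ZP (t c : ℤ) (χ : DirichletCharacter ℂ f) (K : ℕ) (κ : ℝ) (Q : ℕ) {A : Type} (d₁ d₂ : A → ℂ) (r : ℕ → ℤ)
    (ζ₁ ζ₂ : ℕ → Tr A → ℕ × ℕ × ℕ × ℕ → ℝ) : Prop :=
  ∀ (lab : Qd t c → A) (X : ℝ), f * (K * Q : ℝ) ≤ X → ∀ e ∈ good t c K κ Q X, ∀ p ∈ PQ χ Q,
  (((ζ₁ p (TT lab X e) (res p e) : ℝ) : ℂ) + Complex.I * ((ζ₂ p (TT lab X e) (res p e) : ℝ) : ℂ) =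
    (((p : ℝ) + 1) / (2 * Q) : ℝ) * ∑ z ∈ cone X e.1 e.2, ∑ w ∈ cone X e.1 e.2,
      (open scoped Classical in
        if dt z w = p ∧ lat p (r p) z then d₁ (lab z) * d₂ (lab w) else 0)) ∧
  (((av p (ζ₁ p) (TT lab X e) : ℝ) : ℂ) + Complex.I * ((av p (ζ₂ p) (TT lab X e) : ℝ) : ℂ) =
    (1 / (2 * (Q : ℝ)) : ℝ) * ∑ z ∈ cone X e.1 e.2, ∑ w ∈ cone X e.1 e.2,
      (if dt z w = p then d₁ (lab z) * d₂ (lab w) else 0))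

/-- the estimate for fixed `X` -/
theorem per_X (hF : Fd t c f χ) (hP : S_PERX t c χ) {N : ℕ} {τ : ℂ} {F₁ F₂ : Qd t c → ℂ} (h : Pr N τ F₁ F₂) {q : ℕ} [NeZero q]
    {R : Qd t c → Qd t c → Prop} (hR : Rel q R) {s s₁ s₂ s₃ s₄ : ℝ}
    (hs₁ : 0 < s₁) (hs₃ : 0 < s₃) (hs1 : s ≤ s₁) (hs3 : s ≤ s₃) {K : ℕ} {κ : ℝ} {Q : ℕ} {X : ℝ}
    (hK : 1 ≤ K) (hκ : 0 < κ) (hQ : 1 ≤ Q) (hqQ : q ≤ Q) (hX : f * (K * Q : ℝ) ≤ X)
    (ϖ : ℕ → Qd t c) (rr : ℕ → ℤ) (hϖ : ∀ p ∈ PQ χ Q, nm (ϖ p) = p ∧ lat p (rr p) (ϖ p) ∧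
      (p : ℤ) ∣ rr p ^ 2 - t * rr p + c)
    (ζ₁ ζ₂ : Cq q × Cq q → ℕ → Tr (La N q) → ℕ × ℕ × ℕ × ℕ → ℝ)
    (hζ : ∀ ab, ZP t c χ K κ Q (D1 N ab.1) (D2 N ab.2) rr (ζ₁ ab) (ζ₂ ab)) {E ε' : ℝ}
    (hbil : ∀ ab : Cq q × Cq q,
      ‖∑ e ∈ good t c K κ Q X, ∑ v ∈ cone X e.1 e.2, ∑ w ∈ cone X e.1 e.2,
        D1 N ab.1 (labX N q s₁ s₂ s₃ s₄ X F₁ F₂ v) * D2 N ab.2 (labX N q s₁ s₂ s₃ s₄ X F₁ F₂ w) *
          (th χ Q (dt v w) : ℂ)‖ ≤ 4 * E) (hε' : 0 ≤ ε')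
    (hL : ∀ p ∈ PQ χ Q, ∀ π : Qd t c, nm π = p →
      (open scoped Classical in
      (((dedge t c (X / p)).filter (fun e => 0 < pp e.1 e.2 ∧ s * (X / p) < (nm e.1 : ℝ) ∧
        s * (X / p) < (nm e.2 : ℝ) ∧ ¬ InG K κ Q X π e)).card : ℝ)) ≤ ε' * (X / p)) :
    ‖SX χ (g2 F₁ F₂ R) s₁ s₂ s₃ s₄ Q X‖ ≤
      2 * Q * (∑ ab ∈ PR q R, Dec χ K Q X (labX N q s₁ s₂ s₃ s₄ X F₁ F₂) (ζ₁ ab) (ζ₂ ab)) +
        ((PR q R).card * (4 * E) + 2 * ε' * X * ∑ p ∈ PQ χ Q, Real.log p) := by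
  classical
  have hK0 : (0 : ℝ) < K := by exact_mod_cast hK
  have hQ0 : (0 : ℝ) < Q := by exact_mod_cast hQ
  have hX0 : 0 ≤ X := le_trans (by positivity) hX
  have hq0 : 0 < q := Nat.pos_of_ne_zero (NeZero.ne q)
  set lab := labX N q s₁ s₂ s₃ s₄ X F₁ F₂ with hlab
  set G : Cq q × Cq q → ℕ → ℂ := fun ab p => ∑ e ∈ (dedge t c (X / p)).filter (InG K κ Q X (ϖ p)),
    D1 N ab.1 (lab (ϖ p * e.1)) * D2 N ab.2 (lab (ϖ p * e.2)) with hG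
  -- each pair of classes
  have hab : ∀ ab : Cq q × Cq q, ‖∑ p ∈ PQ χ Q, ((Real.log p * ((p : ℝ) + 1) : ℝ) : ℂ) * G ab p‖ ≤
      2 * Q * Dec χ K Q X lab (ζ₁ ab) (ζ₂ ab) + 4 * E := by
    intro ab
    have h1 := hP K κ Q X (La N q) (D1 N ab.1) (D2 N ab.2) lab ϖ rr (ζ₁ ab) (ζ₂ ab) hK hκ hQ hX hϖ
      (fun e he p hp => hζ ab lab X hX e he p hp)
    exact h1.trans (add_le_add le_rfl (hbil ab))
  have hsum : ‖∑ p ∈ PQ χ Q, ((Real.log p * ((p : ℝ) + 1) : ℝ) : ℂ) * ∑ ab ∈ PR q R, G ab p‖ ≤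
      2 * Q * (∑ ab ∈ PR q R, Dec χ K Q X lab (ζ₁ ab) (ζ₂ ab)) + (PR q R).card * (4 * E) := by
    have h1 : ∑ p ∈ PQ χ Q, ((Real.log p * ((p : ℝ) + 1) : ℝ) : ℂ) * ∑ ab ∈ PR q R, G ab p =
        ∑ ab ∈ PR q R, ∑ p ∈ PQ χ Q, ((Real.log p * ((p : ℝ) + 1) : ℝ) : ℂ) * G ab p := by
      simp only [mul_sum]
      rw [sum_comm]
    rw [h1]
    refine (norm_sum_le _ _).trans ((sum_le_sum fun ab _ => hab ab).trans (le_of_eq ?_))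
    rw [sum_add_distrib, ← mul_sum, sum_const, nsmul_eq_mul]
  -- the loss
  have hloss : ‖τ * SX χ (g2 F₁ F₂ R) s₁ s₂ s₃ s₄ Q X -
      ∑ p ∈ PQ χ Q, ((Real.log p * ((p : ℝ) + 1) : ℝ) : ℂ) * ∑ ab ∈ PR q R, G ab p‖ ≤
      2 * ε' * X * ∑ p ∈ PQ χ Q, Real.log p := by
    unfold SX
    rw [mul_sum, ← sum_sub_distrib, mul_sum]
    refine (norm_sum_le _ _).trans (sum_le_sum fun p hp => ?_)
    have hpp := (PQ_mem hp).2.2.1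
    have hp0 : (0 : ℝ) < p := by exact_mod_cast hpp.pos
    have hp1 : (1 : ℝ) ≤ p := by exact_mod_cast hpp.one_lt.le
    have hcop : Nat.Coprime p q := by
      rw [Nat.Prime.coprime_iff_not_dvd hpp]
      intro hdvd
      have := Nat.le_of_dvd hq0 hdvd
      have := (PQ_mem hp).1
      omega
    have h1 := AG_split h hR hpp hcop (hϖ p hp).1 (s := s) (s₁ := s₁) (s₂ := s₂) (s₃ := s₃)
      (s₄ := s₄) (X := X) (by positivity) (by positivity) (mul_le_mul_of_nonneg_right hs1 hX0)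
      (mul_le_mul_of_nonneg_right hs3 hX0) (K := K) (κ := κ) (Q := Q)
      (fun e he => InG_pp hF (by positivity) hX he)
      (hL p hp _ (hϖ p hp).1)
    have h2 : τ * (((Real.log p * ((p : ℝ) + 1) : ℝ) : ℂ) * AG (g2 F₁ F₂ R) s₁ s₂ s₃ s₄ (X / p)) -
        ((Real.log p * ((p : ℝ) + 1) : ℝ) : ℂ) * ∑ ab ∈ PR q R, G ab p =
        ((Real.log p * ((p : ℝ) + 1) : ℝ) : ℂ) *
        (τ * AG (g2 F₁ F₂ R) s₁ s₂ s₃ s₄ (X / p) - ∑ ab ∈ PR q R, G ab p) := by ring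
    rw [h2, norm_mul, Complex.norm_real, Real.norm_eq_abs,
      abs_of_nonneg (mul_nonneg (log_nonneg_PQ hp) (by positivity))]
    calc Real.log p * ((p : ℝ) + 1) *
          ‖τ * AG (g2 F₁ F₂ R) s₁ s₂ s₃ s₄ (X / p) - ∑ ab ∈ PR q R, G ab p‖
        ≤ Real.log p * ((p : ℝ) + 1) * (ε' * (X / p)) :=
          mul_le_mul_of_nonneg_left h1 (mul_nonneg (log_nonneg_PQ hp) (by positivity))
      _ = Real.log p * ε' * X * (((p : ℝ) + 1) / p) := by ring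
      _ ≤ Real.log p * ε' * X * 2 := by
          refine mul_le_mul_of_nonneg_left ?_
            (mul_nonneg (mul_nonneg (log_nonneg_PQ hp) hε') hX0)
          rw [div_le_iff₀ hp0]
          linarith
      _ = 2 * ε' * X * Real.log p := by ring
  have hτ : ‖τ * SX χ (g2 F₁ F₂ R) s₁ s₂ s₃ s₄ Q X‖ = ‖SX χ (g2 F₁ F₂ R) s₁ s₂ s₃ s₄ Q X‖ := by
    rw [norm_mul, tau_norm hF h, one_mul]
  rw [← hτ]
  have h3 := norm_add_le (τ * SX χ (g2 F₁ F₂ R) s₁ s₂ s₃ s₄ Q X -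
      ∑ p ∈ PQ χ Q, ((Real.log p * ((p : ℝ) + 1) : ℝ) : ℂ) * ∑ ab ∈ PR q R, G ab p)
      (∑ p ∈ PQ χ Q, ((Real.log p * ((p : ℝ) + 1) : ℝ) : ℂ) * ∑ ab ∈ PR q R, G ab p)
  rw [sub_add_cancel] at h3
  linarith

/-- the averaging over the primes -/
theorem avg_primes {g : Qd t c × Qd t c → ℂ} {s₁ s₂ s₃ s₄ C : ℝ} (hC0 : 0 ≤ C) {Q Q₂ N : ℕ}
    (hQ2 : Q ≤ Q₂) (hN : 1 ≤ N)
    (hC : ∀ p N : ℕ, 1 ≤ p → 1 ≤ N →
      ‖∑ X ∈ Icc 1 N, (((p : ℝ) / (X : ℝ) ^ 2 : ℝ) : ℂ) * AG g s₁ s₂ s₃ s₄ ((X : ℝ) / p) -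
        ∑ X ∈ Icc 1 N, ((1 / (X : ℝ) ^ 2 : ℝ) : ℂ) * AG g s₁ s₂ s₃ s₄ X‖ ≤ C * (1 + Real.log p)) :
    (∑ p ∈ PQ χ Q, Real.log p * (((p : ℝ) + 1) / p)) *
      ‖∑ X ∈ Icc 1 N, ((1 / (X : ℝ) ^ 2 : ℝ) : ℂ) * AG g s₁ s₂ s₃ s₄ X‖ ≤
    (∑ p ∈ PQ χ Q, Real.log p * (((p : ℝ) + 1) / p)) * (C * (1 + Real.log (2 * Q₂))) +
      ‖∑ X ∈ Icc 1 N, ((1 / (X : ℝ) ^ 2 : ℝ) : ℂ) * SX χ g s₁ s₂ s₃ s₄ Q X‖ := by
  set T := ∑ X ∈ Icc 1 N, ((1 / (X : ℝ) ^ 2 : ℝ) : ℂ) * AG g s₁ s₂ s₃ s₄ X with hT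
  set θ : ℕ → ℝ := fun p => Real.log p * (((p : ℝ) + 1) / p) with hθ
  set Tp : ℕ → ℂ := fun p => ∑ X ∈ Icc 1 N, (((p : ℝ) / (X : ℝ) ^ 2 : ℝ) : ℂ) *
    AG g s₁ s₂ s₃ s₄ ((X : ℝ) / p) with hTp
  have hθ0 : ∀ p ∈ PQ χ Q, 0 ≤ θ p := fun p hp =>
    mul_nonneg (log_nonneg_PQ hp) (by positivity)
  have h1 : ∑ X ∈ Icc 1 N, ((1 / (X : ℝ) ^ 2 : ℝ) : ℂ) * SX χ g s₁ s₂ s₃ s₄ Q X =
      ∑ p ∈ PQ χ Q, (θ p : ℂ) * Tp p := by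
    unfold SX
    simp only [hTp, mul_sum]
    rw [sum_comm]
    refine sum_congr rfl fun p hp => sum_congr rfl fun X _ => ?_
    have hp0 : (p : ℝ) ≠ 0 := by exact_mod_cast (PQ_mem hp).2.2.1.ne_zero
    rw [← mul_assoc, ← mul_assoc, ← Complex.ofReal_mul, ← Complex.ofReal_mul]
    congr 2
    simp only [hθ]
    field_simp
  have h2 : ((∑ p ∈ PQ χ Q, θ p : ℝ) : ℂ) * T = ∑ p ∈ PQ χ Q, (θ p : ℂ) * (T - Tp p) +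
      ∑ X ∈ Icc 1 N, ((1 / (X : ℝ) ^ 2 : ℝ) : ℂ) * SX χ g s₁ s₂ s₃ s₄ Q X := by
    rw [h1, ← sum_add_distrib, Complex.ofReal_sum, sum_mul]
    refine sum_congr rfl fun p _ => ?_
    ring
  have h3 : ‖∑ p ∈ PQ χ Q, (θ p : ℂ) * (T - Tp p)‖ ≤
      (∑ p ∈ PQ χ Q, θ p) * (C * (1 + Real.log (2 * Q₂))) := by
    rw [sum_mul]
    refine (norm_sum_le _ _).trans (sum_le_sum fun p hp => ?_)
    rw [norm_mul, Complex.norm_real, Real.norm_eq_abs, abs_of_nonneg (hθ0 p hp)]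
    refine mul_le_mul_of_nonneg_left ?_ (hθ0 p hp)
    have hp1 := (PQ_mem hp).2.2.1.one_lt.le
    have h4 := hC p N hp1 hN
    rw [norm_sub_rev] at h4
    refine h4.trans (mul_le_mul_of_nonneg_left ?_ hC0)
    have h5 : (p : ℝ) ≤ 2 * Q₂ := by
      have h6 : p ≤ 2 * Q₂ := by
        have := (PQ_mem hp).2.1
        omega
      exact_mod_cast h6
    have h7 : (0 : ℝ) < p := by exact_mod_cast hp1
    linarith [Real.log_le_log h7 h5]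
  have h4 : (∑ p ∈ PQ χ Q, θ p) * ‖T‖ = ‖((∑ p ∈ PQ χ Q, θ p : ℝ) : ℂ) * T‖ := by
    rw [norm_mul, Complex.norm_real, Real.norm_eq_abs, abs_of_nonneg (sum_nonneg hθ0)]
  rw [h4, h2]
  exact (norm_add_le _ _).trans (by linarith)

theorem g2_le {N : ℕ} {F₁ F₂ : Qd t c → ℂ} (h₁ : Cm N F₁) (h₂ : Cm N F₂) (R : Qd t c → Qd t c → Prop)
    (e : Qd t c × Qd t c) : ‖g2 F₁ F₂ R e‖ ≤ 1 := by
  unfold g2
  split_ifs
  · rw [norm_mul, Complex.norm_eq_one_of_pow_eq_one (h₁.pow _) (by have := h₁.pos; omega),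
      Complex.norm_eq_one_of_pow_eq_one (h₂.pow _) (by have := h₁.pos; omega), mul_one]
  · rw [norm_zero]; exact zero_le_one

/-- the properties needed for large `Q` and `X` -/
def GoodQX (χ : DirichletCharacter ℂ f) (q : ℕ) (F₂ : Qd t c → ℂ) (s s₁ s₃ s₄ : ℝ) (K : ℕ) (κ E₀ ε' : ℝ) (Q : ℕ) (X : ℝ) : Prop :=
  f * (K * Q : ℝ) ≤ X ∧
  (∀ b : Cq q, ∀ α : Qd t c → ℝ, (∀ z, |α z| ≤ 1) → (∀ z, α z ≠ 0 → s₁ * X < (nm z : ℝ)) →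
      |∑ e ∈ good t c K κ Q X, ∑ v ∈ cone X e.1 e.2, ∑ w ∈ cw X s₃ s₄ e.1 e.2,
        α v * cl q (rep b) (fun z => (F₂ z).re) w * th χ Q (dt v w)| ≤ E₀ * X * Q) ∧
  (∀ b : Cq q, ∀ α : Qd t c → ℝ, (∀ z, |α z| ≤ 1) → (∀ z, α z ≠ 0 → s₁ * X < (nm z : ℝ)) →
      |∑ e ∈ good t c K κ Q X, ∑ v ∈ cone X e.1 e.2, ∑ w ∈ cw X s₃ s₄ e.1 e.2,
        α v * cl q (rep b) (fun z => (F₂ z).im) w * th χ Q (dt v w)| ≤ E₀ * X * Q) ∧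
  (∀ p ∈ PQ χ Q, ∀ π : Qd t c, nm π = p →
      (open scoped Classical in
      (((dedge t c (X / p)).filter (fun e => 0 < pp e.1 e.2 ∧ s * (X / p) < (nm e.1 : ℝ) ∧
        s * (X / p) < (nm e.2 : ℝ) ∧ ¬ InG K κ Q X π e)).card : ℝ)) ≤ ε' * (X / p))

theorem ev_ev {P : ℕ → ℝ → Prop} (h : ∃ Q₀ : ℕ, ∀ Q : ℕ, Q₀ ≤ Q → ∃ X₀ : ℝ, ∀ X : ℝ, X₀ ≤ X → P Q X) :
    ∀ᶠ Q : ℕ in atTop, ∀ᶠ X : ℝ in atTop, P Q X := by
  obtain ⟨Q₀, h⟩ := h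
  filter_upwards [eventually_ge_atTop Q₀] with Q hQ
  obtain ⟨X₀, hX⟩ := h Q hQ
  filter_upwards [eventually_ge_atTop X₀] with X hX'
  exact hX X hX'

theorem goodQX {q : ℕ} [NeZero q] {F₂ : Qd t c → ℂ}
    (hBt : ∀ β : Qd t c, Bt χ (cl q β (fun z => (F₂ z).re)) ∧ Bt χ (cl q β (fun z => (F₂ z).im)))
    {s s₁ s₃ s₄ : ℝ} (hs₁ : 0 < s₁) (hs₃ : 0 < s₃) (hs₃₄ : s₃ < s₄) (hs₄ : s₄ ≤ 1) {K : ℕ}
    (hK : 1 ≤ K) {κ : ℝ} (hκ : 0 < κ) {E₀ ε' : ℝ} (hE : 0 < E₀)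
    (hL : ∃ Q₀ : ℕ, ∀ Q : ℕ, Q₀ ≤ Q → ∃ X₀ : ℝ, ∀ X : ℝ, X₀ ≤ X →
    ∀ p ∈ PQ χ Q, ∀ π : Qd t c, nm π = p →
    (open scoped Classical in
    (((dedge t c (X / p)).filter (fun e => 0 < pp e.1 e.2 ∧ s * (X / p) < (nm e.1 : ℝ) ∧
      s * (X / p) < (nm e.2 : ℝ) ∧ ¬ InG K κ Q X π e)).card : ℝ)) ≤ ε' * (X / p)) :
    ∃ Q₀ : ℕ, ∀ Q : ℕ, Q₀ ≤ Q → ∃ X₀ : ℝ, ∀ X : ℝ, X₀ ≤ X →
      GoodQX χ q F₂ s s₁ s₃ s₄ K κ E₀ ε' Q X := by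
  have h1 : ∀ᶠ Q : ℕ in atTop, ∀ᶠ X : ℝ in atTop, f * (K * Q : ℝ) ≤ X :=
    Eventually.of_forall fun Q => eventually_ge_atTop _
  have h2 : ∀ᶠ Q : ℕ in atTop, ∀ b : Cq q, ∀ᶠ X : ℝ in atTop, ∀ α : Qd t c → ℝ, (∀ z, |α z| ≤ 1) →
      (∀ z, α z ≠ 0 → s₁ * X < (nm z : ℝ)) →
      |∑ e ∈ good t c K κ Q X, ∑ v ∈ cone X e.1 e.2, ∑ w ∈ cw X s₃ s₄ e.1 e.2,
        α v * cl q (rep b) (fun z => (F₂ z).re) w * th χ Q (dt v w)| ≤ E₀ * X * Q :=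
    eventually_all.2 fun b => ev_ev ((hBt (rep b)).1 K κ s₁ s₃ s₄ E₀ hK hκ hs₁ hs₃ hs₃₄ hs₄ hE)
  have h3 : ∀ᶠ Q : ℕ in atTop, ∀ b : Cq q, ∀ᶠ X : ℝ in atTop, ∀ α : Qd t c → ℝ, (∀ z, |α z| ≤ 1) →
      (∀ z, α z ≠ 0 → s₁ * X < (nm z : ℝ)) →
      |∑ e ∈ good t c K κ Q X, ∑ v ∈ cone X e.1 e.2, ∑ w ∈ cw X s₃ s₄ e.1 e.2,
        α v * cl q (rep b) (fun z => (F₂ z).im) w * th χ Q (dt v w)| ≤ E₀ * X * Q :=
    eventually_all.2 fun b => ev_ev ((hBt (rep b)).2 K κ s₁ s₃ s₄ E₀ hK hκ hs₁ hs₃ hs₃₄ hs₄ hE)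
  have h4 := ev_ev hL
  have h5 : ∀ᶠ Q : ℕ in atTop, ∀ᶠ X : ℝ in atTop, GoodQX χ q F₂ s s₁ s₃ s₄ K κ E₀ ε' Q X := by
    filter_upwards [h1, h2, h3, h4] with Q g1 g2 g3 g4
    filter_upwards [g1, eventually_all.2 g2, eventually_all.2 g3, g4] with X a1 a2 a3 a4
    exact ⟨a1, a2, a3, a4⟩
  obtain ⟨Q₀, hQ₀⟩ := eventually_atTop.1 h5
  exact ⟨Q₀, fun Q hQ => eventually_atTop.1 (hQ₀ Q hQ)⟩

theorem mainx (hF : Fd t c f χ) (hz : S_ZX t c χ) (hp : S_PERX t c χ) (hd : S_DCP t c χ)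
    (hdil : S_DILX t c) (hl : S_LOSS t c χ) (hc : S_PCNT χ) : S_MAINX t c χ := by
  classical
  intro N₀' τ F₁ F₂ hPr q hq hBt R hR s₁ s₂ s₃ s₄ hs₁ hs₁₂ hs₂ hs₃ hs₃₄ hs₄ ε hε
  have : NeZero q := ⟨by omega⟩
  obtain ⟨cc, _, hc0, Qc, hQc⟩ := hc
  set g := g2 F₁ F₂ R with hg
  obtain ⟨C₁, hC₁⟩ := hdil g (g2_le hPr.cm₁ hPr.cm₂ R) s₁ s₂ s₃ s₄ hs₁ hs₁₂ hs₂ hs₃ hs₃₄ hs₄
  set C := |C₁| with hCdef
  have hC0 : 0 ≤ C := abs_nonneg _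
  have hC : ∀ p N : ℕ, 1 ≤ p → 1 ≤ N →
      ‖∑ X ∈ Icc 1 N, (((p : ℝ) / (X : ℝ) ^ 2 : ℝ) : ℂ) * AG g s₁ s₂ s₃ s₄ ((X : ℝ) / p) -
        ∑ X ∈ Icc 1 N, ((1 / (X : ℝ) ^ 2 : ℝ) : ℂ) * AG g s₁ s₂ s₃ s₄ X‖ ≤
        C * (1 + Real.log p) := by
    intro p N hp hN
    refine (hC₁ p N hp hN).trans (mul_le_mul_of_nonneg_right (le_abs_self _) ?_)
    have := Real.log_natCast_nonneg p
    linarith
  set s := min s₁ s₃ with hs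
  have hs0 : 0 < s := lt_min hs₁ hs₃
  obtain ⟨K₀, hK₀⟩ := hl s (ε / 32) hs0 (by positivity)
  set K := max K₀ 1 with hKdef
  have hK : 1 ≤ K := le_max_right _ _
  obtain ⟨κ, hκ, hκ'⟩ := hK₀ K (le_max_left _ _)
  have hLL := hκ' κ hκ le_rfl
  obtain ⟨B, hB⟩ := hz K κ hK hκ
  set m : ℝ := (Fintype.card (Cq q × Cq q) : ℝ) with hm
  have hm1 : 1 ≤ m := by
    rw [hm]
    exact_mod_cast Fintype.card_pos
  have hm0 : 0 < m := by linarith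
  obtain ⟨QG, hQG⟩ := goodQX (F₂ := F₂) hBt hs₁ hs₃ hs₃₄ hs₄ hK hκ
    (E₀ := cc * ε / (64 * m)) (by positivity) hLL
  set Q₁ := Qc + QG + q + (⌊(K : ℝ) / κ⌋₊ + 1) with hQ₁
  obtain ⟨Q₂, X₀, N₀, hD⟩ := hd (La N₀' q) K B (cc * ε / (32 * m)) hK (by positivity) Q₁
  -- thresholds
  have hXG : ∀ Q : ℕ, ∃ X₁ : ℝ, Q₁ ≤ Q → ∀ X : ℝ, X₁ ≤ X →
      GoodQX χ q F₂ s s₁ s₃ s₄ K κ (cc * ε / (64 * m)) (ε / 32) Q X := by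
    intro Q
    by_cases hQ : Q₁ ≤ Q
    · obtain ⟨X₁, hX₁⟩ := hQG Q (by omega)
      exact ⟨X₁, fun _ => hX₁⟩
    · exact ⟨0, fun h => absurd h hQ⟩
  choose XG hXG' using hXG
  have hpi : ∀ p : ℕ, ∃ πr : Qd t c × ℤ, p.Prime → χ (p : ZMod f) = 1 →
      nm πr.1 = p ∧ lat p πr.2 πr.1 ∧ (p : ℤ) ∣ πr.2 ^ 2 - t * πr.2 + c := by
    intro p
    by_cases hp : p.Prime ∧ χ (p : ZMod f) = 1
    · obtain ⟨π, r, h⟩ := exists_pi hF hp.1 hp.2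
      exact ⟨(π, r), fun _ _ => h⟩
    · exact ⟨(0, 0), fun ha hb => absurd ⟨ha, hb⟩ hp⟩
  choose πr hπr using hpi
  set X₁ := X₀ + ∑ Q ∈ Icc Q₁ Q₂, ⌈XG Q⌉₊ with hX₁
  have hX₁' : ∀ Q : ℕ, Q₁ ≤ Q → Q ≤ Q₂ → XG Q ≤ X₁ := by
    intro Q ha hb
    have h : ⌈XG Q⌉₊ ≤ X₁ := by
      have := single_le_sum (f := fun Q => ⌈XG Q⌉₊)
        (fun _ _ => Nat.zero_le _) (mem_Icc.2 ⟨ha, hb⟩)
      omega
    have h' : (⌈XG Q⌉₊ : ℝ) ≤ X₁ := by exact_mod_cast h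
    exact (Nat.le_ceil (XG Q)).trans h'
  set M : ℝ := ∑ X ∈ Icc 1 X₁, 1 / (X : ℝ) ^ 2 *
    ∑ Q ∈ Icc Q₁ Q₂, ‖SX χ g s₁ s₂ s₃ s₄ Q X‖ with hM
  have hM0 : 0 ≤ M := sum_nonneg fun X _ => mul_nonneg (by positivity)
    (sum_nonneg fun _ _ => norm_nonneg _)
  set Kst : ℝ := C * (1 + Real.log (2 * Q₂)) + M / cc + ε / 8 with hKst
  refine ⟨max (max N₀ 1) ⌈Real.exp (Kst / (ε / 2))⌉₊, fun N hN => ?_⟩
  have hN0 : N₀ ≤ N := le_trans (le_trans (le_max_left _ _) (le_max_left _ _)) hN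
  have hN1 : 1 ≤ N := le_trans (le_trans (le_max_right _ _) (le_max_left _ _)) hN
  have hNe : Kst / (ε / 2) ≤ Real.log N := by
    have hNR : (0 : ℝ) < N := by exact_mod_cast hN1
    rw [Real.le_log_iff_exp_le hNR]
    have := le_trans (le_max_right _ _) hN
    exact (Nat.le_ceil _).trans (by exact_mod_cast this)
  have hlogN : 0 ≤ Real.log N := Real.log_natCast_nonneg N
  set lab : ℕ → Qd t c → La N₀' q := fun X => labX N₀' q s₁ s₂ s₃ s₄ X F₁ F₂ with hlab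
  obtain ⟨Q, hQ1, hQ2, hζ⟩ := hD N hN0 lab
  have hQpos : 1 ≤ Q := by omega
  have hQR : (1 : ℝ) ≤ Q := by exact_mod_cast hQpos
  have hKQ : (K : ℝ) / κ < Q := by
    have h := Nat.lt_floor_add_one ((K : ℝ) / κ)
    have h' : ⌊(K : ℝ) / κ⌋₊ + 1 ≤ Q := by omega
    have h'' : ((⌊(K : ℝ) / κ⌋₊ : ℝ) + 1) ≤ Q := by exact_mod_cast h'
    linarith
  have hZ := fun ab : Cq q × Cq q => hB Q hKQ (La N₀' q) (D1 N₀' ab.1) (D2 N₀' ab.2)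
    (D1_le hPr.cm₁.pos ab.1) (D2_le hPr.cm₁.pos ab.2) (fun p => (πr p).2)
  choose ζ₁ ζ₂ hζB hζE using hZ
  have hΘ := (hQc Q (by omega)).2.2.1
  set Θ := ∑ p ∈ PQ χ Q, Real.log p with hΘdef
  set Θ' := ∑ p ∈ PQ χ Q, Real.log p * (((p : ℝ) + 1) / p) with hΘ'def
  have hΘ0 : 0 ≤ Θ := sum_nonneg fun p hp => log_nonneg_PQ hp
  have hΘΘ' : Θ ≤ Θ' := by
    refine sum_le_sum fun p hp => ?_
    have hp0 : (0 : ℝ) < p := by exact_mod_cast (PQ_mem hp).2.2.1.pos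
    refine le_mul_of_one_le_right (log_nonneg_PQ hp) ?_
    rw [le_div_iff₀ hp0]
    linarith
  set DX : ℕ → ℝ := fun X => ∑ ab ∈ PR q R, Dec χ K Q X (lab X) (ζ₁ ab) (ζ₂ ab) with hDX
  have hDX0 : ∀ X, 0 ≤ DX X := fun X => sum_nonneg fun _ _ => Dec_nonneg _ _ _ _ _ _
  have hζ'' : ∑ X ∈ Ioc X₀ N, 1 / (X : ℝ) ^ 2 * DX X ≤ cc * ε / 16 * Real.log N := by
    have h1 := fun ab : Cq q × Cq q => hζ (ζ₁ ab) (fun p T y => (hζB ab p T y).1)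
    have h2 := fun ab : Cq q × Cq q => hζ (ζ₂ ab) (fun p T y => (hζB ab p T y).2)
    have h3 : ∑ X ∈ Ioc X₀ N, 1 / (X : ℝ) ^ 2 * DX X = ∑ ab ∈ PR q R,
        ((∑ X ∈ Ioc X₀ N, 1 / (X : ℝ) ^ 2 * ∑ e ∈ edge t c ((X : ℝ) / (K * Q)),
          |∑ p ∈ PQ χ Q, Real.log p * (ζ₁ ab p (TT (lab X) X e) (res p e) -
            av p (ζ₁ ab p) (TT (lab X) X e))|) +
        (∑ X ∈ Ioc X₀ N, 1 / (X : ℝ) ^ 2 * ∑ e ∈ edge t c ((X : ℝ) / (K * Q)),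
          |∑ p ∈ PQ χ Q, Real.log p * (ζ₂ ab p (TT (lab X) X e) (res p e) -
            av p (ζ₂ ab p) (TT (lab X) X e))|)) := by
      have h4 : ∀ X ∈ Ioc X₀ N, 1 / (X : ℝ) ^ 2 * DX X = ∑ ab ∈ PR q R,
        (1 / (X : ℝ) ^ 2 * (∑ e ∈ edge t c ((X : ℝ) / (K * Q)),
          |∑ p ∈ PQ χ Q, Real.log p * (ζ₁ ab p (TT (lab X) X e) (res p e) -
            av p (ζ₁ ab p) (TT (lab X) X e))|) +
        1 / (X : ℝ) ^ 2 * (∑ e ∈ edge t c ((X : ℝ) / (K * Q)),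
          |∑ p ∈ PQ χ Q, Real.log p * (ζ₂ ab p (TT (lab X) X e) (res p e) -
            av p (ζ₂ ab p) (TT (lab X) X e))|)) := by
        intro X _
        simp only [hDX]
        rw [mul_sum]
        refine sum_congr rfl fun ab _ => ?_
        unfold Dec
        rw [sum_add_distrib, mul_add]
      rw [sum_congr rfl h4, sum_comm]
      refine sum_congr rfl fun ab _ => ?_
      rw [sum_add_distrib]
    rw [h3]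
    calc _ ≤ ∑ ab ∈ PR q R, (cc * ε / (32 * m) * Real.log N + cc * ε / (32 * m) * Real.log N) :=
          sum_le_sum fun ab _ => add_le_add (h1 ab) (h2 ab)
      _ = (PR q R).card * (cc * ε / (16 * m) * Real.log N) := by
          rw [sum_const, nsmul_eq_mul]
          ring
      _ ≤ m * (cc * ε / (16 * m) * Real.log N) :=
          mul_le_mul_of_nonneg_right (PR_card R) (by positivity)
      _ = cc * ε / 16 * Real.log N := by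
          field_simp
  -- large X
  have hlarge : ∀ X : ℕ, X₁ < X → ‖SX χ g s₁ s₂ s₃ s₄ Q X‖ ≤
      2 * Q * DX X + (cc * ε / 16 * X * Q + 2 * (ε / 32) * X * Θ) := by
    intro X hX
    have hXR : (X₁ : ℝ) ≤ X := by exact_mod_cast hX.le
    obtain ⟨e1, e2, e3, e4⟩ := hXG' Q hQ1 X ((hX₁' Q hQ1 hQ2).trans hXR)
    have hX0 : (0 : ℝ) ≤ X := Nat.cast_nonneg _
    have h1 := per_X hF hp hPr hR (s := s) (s₂ := s₂) (s₄ := s₄) hs₁ hs₃ (min_le_left _ _)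
      (min_le_right _ _) hK hκ hQpos (by omega) e1 (fun p => (πr p).1) (fun p => (πr p).2)
      (fun p hp => hπr p (PQ_mem hp).2.2.1 (PQ_mem hp).2.2.2) ζ₁ ζ₂ hζE
      (E := cc * ε / (64 * m) * X * Q)
      (fun ab => bil hPr.cm₁ hPr.cm₂ ab.1 ab.2 (e2 ab.2) (e3 ab.2)) (by positivity) e4
    refine h1.trans (add_le_add le_rfl (add_le_add ?_ le_rfl))
    calc ((PR q R).card : ℝ) * (4 * (cc * ε / (64 * m) * X * Q)) ≤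
          m * (4 * (cc * ε / (64 * m) * X * Q)) :=
          mul_le_mul_of_nonneg_right (PR_card R) (by positivity)
      _ = cc * ε / 16 * X * Q := by
          field_simp
          ring
  -- the sum over X
  have hsum : ‖∑ X ∈ Icc 1 N, ((1 / (X : ℝ) ^ 2 : ℝ) : ℂ) * SX χ g s₁ s₂ s₃ s₄ Q X‖ ≤
      M + 2 * Q * (cc * ε / 16 * Real.log N) +
        (cc * ε / 16 * Q + 2 * (ε / 32) * Θ) * (1 + Real.log N) := by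
    have h := sum_split (fun X => ‖SX χ g s₁ s₂ s₃ s₄ Q X‖) DX
      (fun X => ∑ Q ∈ Icc Q₁ Q₂, ‖SX χ g s₁ s₂ s₃ s₄ Q X‖) (X₀ := X₀) (X₁ := X₁) (N := N)
      (a := 2 * Q) (b := cc * ε / 16 * Q + 2 * (ε / 32) * Θ) (Λ := cc * ε / 16 * Real.log N)
      (fun X => by
        rw [abs_norm]
        exact single_le_sum (f := fun Q => ‖SX χ g s₁ s₂ s₃ s₄ Q X‖)
          (fun _ _ => norm_nonneg _) (mem_Icc.2 ⟨hQ1, hQ2⟩))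
      (fun X hX => by
        rw [abs_norm]
        exact (hlarge X hX).trans (le_of_eq (by ring))) hDX0 (by positivity)
      (by positivity) (Nat.le_add_right _ _) hζ''
    refine le_trans ((norm_sum_le _ _).trans ?_) ((le_abs_self _).trans h)
    refine le_of_eq (sum_congr rfl fun X _ => ?_)
    rw [norm_mul, Complex.norm_real, Real.norm_of_nonneg (by positivity)]
  have hmain := avg_primes (χ := χ) (g := g) (s₁ := s₁) (s₂ := s₂) (s₃ := s₃) (s₄ := s₄) hC0 hQ2 hN1 hC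
  rw [← hΘ'def] at hmain
  set T := ∑ X ∈ Icc 1 N, ((1 / (X : ℝ) ^ 2 : ℝ) : ℂ) * AG g s₁ s₂ s₃ s₄ X with hT
  have hΘ'cc : cc * Q ≤ Θ' := hΘ.trans hΘΘ'
  have hΘ'pos : 0 < Θ' := lt_of_lt_of_le (by positivity) hΘ'cc
  have b1 : M ≤ Θ' * (M / cc) := by
    have : cc ≤ Θ' := le_trans (le_mul_of_one_le_right hc0.le hQR) hΘ'cc
    calc M = cc * (M / cc) := by field_simp
      _ ≤ Θ' * (M / cc) := mul_le_mul_of_nonneg_right this (by positivity)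
  have b2 : 2 * Q * (cc * ε / 16 * Real.log N) ≤ Θ' * (ε / 8 * Real.log N) := by
    calc 2 * Q * (cc * ε / 16 * Real.log N) = cc * Q * (ε / 8 * Real.log N) := by ring
      _ ≤ Θ' * (ε / 8 * Real.log N) := mul_le_mul_of_nonneg_right hΘ'cc (by positivity)
  have b3 : (cc * ε / 16 * Q + 2 * (ε / 32) * Θ) * (1 + Real.log N) ≤
      Θ' * (ε / 8 * (1 + Real.log N)) := by
    calc (cc * ε / 16 * Q + 2 * (ε / 32) * Θ) * (1 + Real.log N) =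
        (cc * Q + Θ) * (ε / 16 * (1 + Real.log N)) := by ring
      _ ≤ (Θ' + Θ') * (ε / 16 * (1 + Real.log N)) :=
          mul_le_mul_of_nonneg_right (by linarith) (by positivity)
      _ = Θ' * (ε / 8 * (1 + Real.log N)) := by ring
  have b4 : Θ' * ‖T‖ ≤ Θ' * (Kst + ε / 4 * Real.log N) := by
    calc Θ' * ‖T‖ ≤ Θ' * (C * (1 + Real.log (2 * Q₂))) + Θ' * (M / cc) +
        Θ' * (ε / 8 * Real.log N) + Θ' * (ε / 8 * (1 + Real.log N)) := by linarith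
      _ = Θ' * (Kst + ε / 4 * Real.log N) := by rw [hKst]; ring
  have b5 : ‖T‖ ≤ Kst + ε / 4 * Real.log N := le_of_mul_le_mul_left b4 hΘ'pos
  have b6 : Kst ≤ ε / 2 * Real.log N := by
    rw [div_le_iff₀ (by positivity)] at hNe
    linarith
  have b7 : 0 ≤ ε * Real.log N := by positivity
  linarith

end Pool.Agent.W428.EG
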