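import Pool.Agent.W108.EG.Tree1

/-!
Project EG: labels, dilation, and the estimate for fixed `X` (port of `W370.EX.LabX`).
-/

set_option autoImplicit false

namespace Pool.Agent.W428.EG

open Finset Filter
open Pool.Agent.W78.GA (Qd nm prim dt ip lat pball ball edge dedge)
open Pool.Agent.W78.EC (Tr av)
open Pool.Agent.W251.GX (Cm)
open Pool.Agent.W78.EG

variable {t c : ℤ} {f : ℕ} {χ : DirichletCharacter ℂ f}

/-- the values -/
noncomputable def VN (N : ℕ) : Finset ℂ := insert 0 (Polynomial.nthRootsFinset N (1 : ℂ))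

theorem mem_VN {N : ℕ} (hN : 1 ≤ N) {x : ℂ} : x ∈ VN N ↔ x = 0 ∨ x ^ N = 1 := by
  unfold VN
  rw [mem_insert, Polynomial.mem_nthRootsFinset (by omega)]

theorem norm_VN {N : ℕ} (hN : 1 ≤ N) {x : ℂ} (hx : x ∈ VN N) : ‖x‖ ≤ 1 := by
  rcases (mem_VN hN).1 hx with h | h
  · rw [h, norm_zero]; exact zero_le_one
  · exact (Complex.norm_eq_one_of_pow_eq_one h (by omega)).le

open scoped Classical in
/-- encoding of the values -/
noncomputable def enc (N : ℕ) (x : ℂ) : {x // x ∈ VN N} :=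
  if h : x ∈ VN N then ⟨x, h⟩ else ⟨0, mem_insert_self _ _⟩

theorem enc_val {N : ℕ} {x : ℂ} (h : x ∈ VN N) : ((enc N x : {x // x ∈ VN N}) : ℂ) = x := by
  unfold enc
  rw [dif_pos h]

/-- residue classes -/
abbrev Cq (q : ℕ) := ZMod q × ZMod q

/-- the labels -/
abbrev La (N q : ℕ) := {x // x ∈ VN N} × {x // x ∈ VN N} × Cq q

/-- the residue class -/
def cz (q : ℕ) (z : Qd t c) : Cq q := ((z.re : ZMod q), (z.im : ZMod q))

/-- representatives of the residue classes -/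
def rep {q : ℕ} (b : Cq q) : Qd t c := ⟨(b.1.val : ℤ), (b.2.val : ℤ)⟩

theorem cz_rep {q : ℕ} [NeZero q] (b : Cq q) : cz q (rep b : Qd t c) = b := by
  unfold cz rep
  simp

theorem cz_eq {q : ℕ} {z w : Qd t c} : cz q z = cz q w ↔
    (q : ℤ) ∣ z.re - w.re ∧ (q : ℤ) ∣ z.im - w.im := by
  unfold cz
  rw [Prod.mk.injEq, eq_comm, ZMod.intCast_eq_intCast_iff_dvd_sub, eq_comm (a := (z.im : ZMod q)),
    ZMod.intCast_eq_intCast_iff_dvd_sub]

theorem cl_eq {q : ℕ} [NeZero q] (b : Cq q) (A : Qd t c → ℝ) (z : Qd t c) :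
    cl q (rep b) A z = if cz q z = b then A z else 0 := by
  unfold cl
  refine if_congr ?_ rfl rfl
  rw [← cz_eq, cz_rep]

theorem R_iff {q : ℕ} [NeZero q] {R : Qd t c → Qd t c → Prop} (hR : Rel q R) (v w : Qd t c) :
    R v w ↔ R (rep (cz q v)) (rep (cz q w)) := by
  have h1 := cz_eq.1 (cz_rep (t := t) (c := c) (cz q v)).symm
  have h2 := cz_eq.1 (cz_rep (t := t) (c := c) (cz q w)).symm
  exact hR.per v w _ _ h1.1 h1.2 h2.1 h2.2

open scoped Classical in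
/-- a function in a window -/
noncomputable def win (s u X : ℝ) (F : Qd t c → ℂ) (z : Qd t c) : ℂ :=
  if s * X < (nm z : ℝ) ∧ (nm z : ℝ) ≤ u * X then F z else 0

theorem win_mem {N : ℕ} {F : Qd t c → ℂ} (hF : Cm N F) (s u X : ℝ) (z : Qd t c) :
    win s u X F z ∈ VN N := by
  rw [mem_VN hF.pos]
  unfold win
  split_ifs
  · right; exact hF.pow z
  · left; rfl

theorem win_le {N : ℕ} {F : Qd t c → ℂ} (hF : Cm N F) (s u X : ℝ) (z : Qd t c) :
    ‖win s u X F z‖ ≤ 1 := norm_VN hF.pos (win_mem hF s u X z)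

/-- the labelling -/
noncomputable def labX (N q : ℕ) (s₁ s₂ s₃ s₄ X : ℝ) (F₁ F₂ : Qd t c → ℂ) (z : Qd t c) : La N q :=
  (enc N (win s₁ s₂ X F₁ z), enc N (win s₃ s₄ X F₂ z), cz q z)

open scoped Classical in
/-- first function of the label -/
noncomputable def D1 (N : ℕ) {q : ℕ} (a : Cq q) (x : La N q) : ℂ :=
  if x.2.2 = a then (x.1 : ℂ) else 0

open scoped Classical in
/-- second function of the label -/
noncomputable def D2 (N : ℕ) {q : ℕ} (b : Cq q) (x : La N q) : ℂ :=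
  if x.2.2 = b then (x.2.1 : ℂ) else 0

theorem D1_le {N q : ℕ} (hN : 1 ≤ N) (a : Cq q) (x : La N q) : ‖D1 N a x‖ ≤ 1 := by
  unfold D1
  split_ifs
  · exact norm_VN hN x.1.2
  · rw [norm_zero]; exact zero_le_one

theorem D2_le {N q : ℕ} (hN : 1 ≤ N) (a : Cq q) (x : La N q) : ‖D2 N a x‖ ≤ 1 := by
  unfold D2
  split_ifs
  · exact norm_VN hN x.2.1.2
  · rw [norm_zero]; exact zero_le_one

open scoped Classical in
theorem D1_lab {N q : ℕ} {s₁ s₂ s₃ s₄ X : ℝ} {F₁ F₂ : Qd t c → ℂ} (h : Cm N F₁) (a : Cq q) (z : Qd t c) :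
    D1 N a (labX N q s₁ s₂ s₃ s₄ X F₁ F₂ z) = if cz q z = a then win s₁ s₂ X F₁ z else 0 := by
  unfold D1 labX
  simp only [enc_val (win_mem h s₁ s₂ X z)]

open scoped Classical in
theorem D2_lab {N q : ℕ} {s₁ s₂ s₃ s₄ X : ℝ} {F₁ F₂ : Qd t c → ℂ} (h : Cm N F₂) (a : Cq q) (z : Qd t c) :
    D2 N a (labX N q s₁ s₂ s₃ s₄ X F₁ F₂ z) = if cz q z = a then win s₃ s₄ X F₂ z else 0 := by
  unfold D2 labX
  simp only [enc_val (win_mem h s₃ s₄ X z)]

open scoped Classical in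
/-- the pairs of classes with `R` -/
noncomputable def PR (q : ℕ) [NeZero q] (R : Qd t c → Qd t c → Prop) : Finset (Cq q × Cq q) :=
  univ.filter (fun ab => R (rep ab.1) (rep ab.2))

open scoped Classical in
theorem R_sum {q : ℕ} [NeZero q] {R : Qd t c → Qd t c → Prop} (hR : Rel q R) (U W : Qd t c → ℂ) (v w : Qd t c) :
    (if R v w then U v * W w else 0) = ∑ ab ∈ PR q R,
      (if cz q v = ab.1 then U v else 0) * (if cz q w = ab.2 then W w else 0) := by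
  unfold PR
  rw [sum_filter, sum_eq_single (cz q v, cz q w)]
  · rw [if_pos rfl, if_pos rfl]
    exact if_congr (R_iff hR v w) rfl rfl
  · intro ab _ hab
    by_cases h1 : cz q v = ab.1
    · by_cases h2 : cz q w = ab.2
      · exact absurd (Prod.ext h1.symm h2.symm) hab
      · rw [if_neg h2, mul_zero, ite_self]
    · rw [if_neg h1, zero_mul, ite_self]
  · intro h
    exact absurd (mem_univ _) h

theorem PR_card {q : ℕ} [NeZero q] (R : Qd t c → Qd t c → Prop) :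
    ((PR q R).card : ℝ) ≤ (Fintype.card (Cq q × Cq q) : ℝ) := by
  exact_mod_cast card_le_univ _

/-! ### dilation -/

theorem win_mul {N : ℕ} {F : Qd t c → ℂ} (hF : Cm N F) {p : ℕ} (hp : p.Prime) {π : Qd t c} (hπ : nm π = p)
    {s u X : ℝ} (h0 : 0 ≤ s * X) (z : Qd t c) :
    win s u X F (π * z) = F π * win s u (X / p) F z := by
  have hp0 : (0 : ℝ) < p := by exact_mod_cast hp.pos
  have h1 : (nm (π * z) : ℝ) = p * nm z := by
    rw [Pool.Agent.W78.GA.nm_mul, hπ]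
    push_cast
    ring
  have h2 : s * X < (nm (π * z) : ℝ) ↔ s * (X / p) < (nm z : ℝ) := by
    rw [h1, ← mul_div_assoc, div_lt_iff₀ hp0, mul_comm (p : ℝ)]
  have h3 : (nm (π * z) : ℝ) ≤ u * X ↔ (nm z : ℝ) ≤ u * (X / p) := by
    rw [h1, ← mul_div_assoc, le_div_iff₀ hp0, mul_comm (p : ℝ)]
  unfold win
  by_cases hc : s * (X / p) < (nm z : ℝ) ∧ (nm z : ℝ) ≤ u * (X / p)
  · rw [if_pos (by rw [h2, h3]; exact hc), if_pos hc]
    have hz : z ≠ 0 := by
      rintro rfl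
      have := hc.1
      rw [Pool.Agent.W78.GA.nm_zero] at this
      have h4 : 0 ≤ s * (X / p) := by
        rw [← mul_div_assoc]
        positivity
      push_cast at this
      linarith
    have hπ0 : π ≠ 0 := by
      rintro rfl
      rw [Pool.Agent.W78.GA.nm_zero] at hπ
      exact hp.ne_zero hπ.symm
    exact hF.mul π z hπ0 hz
  · rw [if_neg (by rw [h2, h3]; exact hc), if_neg hc, mul_zero]

/-- there is an element of prime norm -/
theorem exists_prime_norm (hF : Fd t c f χ) : ∃ π : Qd t c, (nm π).Prime := by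
  have h0 := hF.disc
  have h1 := hF.three
  have ht := hF.tt
  have hc : 1 ≤ c := by
    rcases ht with rfl | rfl
    · omega
    · omega
  obtain ⟨v, hv⟩ : ∃ v : ℕ, (v : ℤ) = 2 ^ 2 - t * 2 + c := by
    refine ⟨(2 ^ 2 - t * 2 + c).toNat, Int.toNat_of_nonneg ?_⟩
    rcases ht with rfl | rfl <;> omega
  have hv2 : v ≠ 1 := by
    rintro rfl
    rcases ht with rfl | rfl <;> omega
  have hp := Nat.minFac_prime hv2
  have hd : ((Nat.minFac v : ℕ) : ℤ) ∣ 2 ^ 2 - t * 2 + c := by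
    rw [← hv]
    exact_mod_cast Nat.minFac_dvd v
  obtain ⟨z, hz, -, -⟩ := hF.red (Nat.minFac v) 2 hp.one_lt.le hd
  exact ⟨z, by rw [hz]; exact hp⟩

theorem tau_norm (hF : Fd t c f χ) {N : ℕ} {τ : ℂ} {F₁ F₂ : Qd t c → ℂ} (h : Pr N τ F₁ F₂) :
    ‖τ‖ = 1 := by
  obtain ⟨π, hπ⟩ := exists_prime_norm hF
  rw [← h.tw π hπ, norm_mul,
    Complex.norm_eq_one_of_pow_eq_one (h.cm₁.pow _) (by have := h.cm₁.pos; omega),
    Complex.norm_eq_one_of_pow_eq_one (h.cm₂.pow _) (by have := h.cm₁.pos; omega), mul_one]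

theorem pp_mul (hD : t ^ 2 < 4 * c) (q v w : Qd t c) : pp (q * v) (q * w) = nm q * pp v w := by
  rw [Pool.Agent.W78.GA.nm_cast hD]
  unfold pp ip dt
  simp only [QuadraticAlgebra.re_mul, QuadraticAlgebra.im_mul]
  ring

theorem pp_coord (hD : t ^ 2 < 4 * c) {a b : Qd t c} (h : dt a b = 1) (v w : Qd t c) :
    pp v w = 2 * (dt v b * dt w b * nm a) + 2 * (dt a v * dt a w * nm b) +
      (dt v b * dt a w + dt a v * dt w b) * pp a b := by
  have h1 : ∀ z : Qd t c, z.re = dt z b * a.re + dt a z * b.re := by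
    intro z
    unfold dt at h ⊢
    linear_combination (-z.re) * h
  have h2 : ∀ z : Qd t c, z.im = dt z b * a.im + dt a z * b.im := by
    intro z
    unfold dt at h ⊢
    linear_combination (-z.im) * h
  rw [Pool.Agent.W78.GA.nm_cast hD, Pool.Agent.W78.GA.nm_cast hD]
  have e1 := h1 v
  have e2 := h2 v
  have e3 := h1 w
  have e4 := h2 w
  rw [Pool.Agent.W108.EG.ppZ, Pool.Agent.W108.EG.ppZ]
  generalize dt v b = x at *
  generalize dt a v = y at *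
  generalize dt w b = x' at *
  generalize dt a w = y' at *
  rw [e1, e2, e3, e4]
  ring

/-- pairs in a cone over a good edge have positive inner product -/
theorem InG_pp (hF : Fd t c f χ) {K : ℕ} {κ : ℝ} {Q : ℕ} {X : ℝ} {π : Qd t c}
    (hKQ : (0 : ℝ) < K * Q) (hX : f * (K * Q : ℝ) ≤ X) {e : Qd t c × Qd t c}
    (h : InG K κ Q X π e) : 0 < pp e.1 e.2 := by
  have hD : t ^ 2 < 4 * c := by
    have h0 := hF.disc
    have h1 := hF.three
    omega
  obtain ⟨g, hg, h1, h2⟩ := h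
  have hge : g ∈ edge t c (X / (K * Q)) := (mem_filter.1 hg).1
  have hY : (f : ℝ) ≤ X / (K * Q) := by
    rw [le_div_iff₀ hKQ]
    exact hX
  obtain ⟨⟨hdt, hpp⟩, -⟩ := Pool.Agent.W108.EG.V_of_edge hD hF.disc hF.three hY
    (a := g.1) (b := g.2) hge
  have h1' := (mem_filter.1 h1).2
  have h2' := (mem_filter.1 h2).2
  have n1 := (Pool.Agent.W108.EG.pos_of_dt hD hdt).1
  have n2 := (Pool.Agent.W108.EG.pos_of_dt hD hdt).2
  have hpos : 0 < pp (π * e.1) (π * e.2) := by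
    rw [pp_coord hD hdt]
    have a1 := h1'.1
    have a2 := h1'.2
    have b1 := h2'.1
    have b2 := h2'.2
    have m1 : (0 : ℤ) < nm g.1 := by exact_mod_cast n1
    have m2 : (0 : ℤ) < nm g.2 := by exact_mod_cast n2
    have c1 : 0 < dt (π * e.1) g.2 * dt (π * e.2) g.2 * nm g.1 := by positivity
    have c2 : 0 < dt g.1 (π * e.1) * dt g.1 (π * e.2) * nm g.2 := by positivity
    have c3 : 0 ≤ (dt (π * e.1) g.2 * dt g.1 (π * e.2) + dt g.1 (π * e.1) * dt (π * e.2) g.2) *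
        pp g.1 g.2 := by positivity
    linarith
  rw [pp_mul hD] at hpos
  exact (pos_iff_pos_of_mul_pos hpos).1 (by
    rcases Nat.eq_zero_or_pos (nm π) with h0 | h0
    · rw [h0] at hpos
      simp at hpos
    · exact_mod_cast h0)

open scoped Classical in
/-- the sum `AG` in terms of the dilated functions -/
theorem AG_eq {N : ℕ} {τ : ℂ} {F₁ F₂ : Qd t c → ℂ} (h : Pr N τ F₁ F₂) {q : ℕ} {R : Qd t c → Qd t c → Prop}
    (hR : Rel q R) {p : ℕ} (hp : p.Prime) (hpq : Nat.Coprime p q) {π : Qd t c} (hπ : nm π = p)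
    {s₁ s₂ s₃ s₄ X : ℝ} (h0 : 0 ≤ s₁ * X) (h0' : 0 ≤ s₃ * X) :
    τ * AG (g2 F₁ F₂ R) s₁ s₂ s₃ s₄ (X / p) =
      ∑ e ∈ (dedge t c (X / p)).filter (fun e => 0 < pp e.1 e.2),
        (if R (π * e.1) (π * e.2) then
          win s₁ s₂ X F₁ (π * e.1) * win s₃ s₄ X F₂ (π * e.2) else 0) := by
  have hAA : AG (g2 F₁ F₂ R) s₁ s₂ s₃ s₄ (X / p) = ∑ e ∈ ((dedge t c (X / p)).filter
      (fun e => 0 < pp e.1 e.2)).filter (fun e =>
        s₁ * (X / p) < (nm e.1 : ℝ) ∧ (nm e.1 : ℝ) ≤ s₂ * (X / p) ∧ s₃ * (X / p) < (nm e.2 : ℝ) ∧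
        (nm e.2 : ℝ) ≤ s₄ * (X / p)), g2 F₁ F₂ R e := by
    unfold AG
    rw [filter_filter]
  rw [hAA, sum_filter, mul_sum]
  refine sum_congr rfl fun e _ => ?_
  have hRR : R (π * e.1) (π * e.2) ↔ R e.1 e.2 := hR.dil π e.1 e.2 (by rw [hπ]; exact hpq)
  have htw : F₁ π * F₂ π = τ := h.tw π (by rw [hπ]; exact hp)
  rw [win_mul h.cm₁ hp hπ h0, win_mul h.cm₂ hp hπ h0']
  unfold g2 win
  by_cases hr : R e.1 e.2
  · rw [if_pos hr, if_pos (hRR.2 hr)]
    by_cases h1 : s₁ * (X / p) < (nm e.1 : ℝ) ∧ (nm e.1 : ℝ) ≤ s₂ * (X / p) <;>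
    by_cases h2 : s₃ * (X / p) < (nm e.2 : ℝ) ∧ (nm e.2 : ℝ) ≤ s₄ * (X / p)
    · rw [if_pos ⟨h1.1, h1.2, h2.1, h2.2⟩, if_pos h1, if_pos h2]
      linear_combination (-(F₁ e.1 * F₂ e.2)) * htw
    · rw [if_neg (fun h => h2 ⟨h.2.2.1, h.2.2.2⟩), if_neg h2]
      simp
    · rw [if_neg (fun h => h1 ⟨h.1, h.2.1⟩), if_neg h1]
      simp
    · rw [if_neg (fun h => h1 ⟨h.1, h.2.1⟩), if_neg h1]
      simp
  · rw [if_neg hr, if_neg (fun h => hr (hRR.1 h)), ite_self, mul_zero]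

open scoped Classical in
/-- few pairs are lost -/
theorem AG_split {N : ℕ} {τ : ℂ} {F₁ F₂ : Qd t c → ℂ} (h : Pr N τ F₁ F₂) {q : ℕ} [NeZero q]
    {R : Qd t c → Qd t c → Prop}
    (hR : Rel q R) {p : ℕ} (hp : p.Prime) (hpq : Nat.Coprime p q) {π : Qd t c} (hπ : nm π = p)
    {s s₁ s₂ s₃ s₄ X : ℝ} (h0 : 0 ≤ s₁ * X) (h0' : 0 ≤ s₃ * X) (hs1 : s * X ≤ s₁ * X)
    (hs3 : s * X ≤ s₃ * X) {K : ℕ} {κ : ℝ} {Q : ℕ} {δ : ℝ}
    (hG : ∀ e, InG K κ Q X π e → 0 < pp e.1 e.2)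
    (hL : (((dedge t c (X / p)).filter (fun e => 0 < pp e.1 e.2 ∧ s * (X / p) < (nm e.1 : ℝ) ∧
      s * (X / p) < (nm e.2 : ℝ) ∧ ¬ InG K κ Q X π e)).card : ℝ) ≤ δ) :
    ‖τ * AG (g2 F₁ F₂ R) s₁ s₂ s₃ s₄ (X / p) -
      ∑ ab ∈ PR q R, ∑ e ∈ (dedge t c (X / p)).filter (InG K κ Q X π),
        D1 N ab.1 (labX N q s₁ s₂ s₃ s₄ X F₁ F₂ (π * e.1)) *
          D2 N ab.2 (labX N q s₁ s₂ s₃ s₄ X F₁ F₂ (π * e.2))‖ ≤ δ := by
  have hp0 : (0 : ℝ) < p := by exact_mod_cast hp.pos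
  have hII : (dedge t c (X / p)).filter (InG K κ Q X π) =
      ((dedge t c (X / p)).filter (fun e => 0 < pp e.1 e.2)).filter (InG K κ Q X π) := by
    rw [filter_filter]
    exact filter_congr fun e _ => ⟨fun h => ⟨hG e h, h⟩, fun h => h.2⟩
  set ff : Qd t c × Qd t c → ℂ := fun e => if R (π * e.1) (π * e.2) then
          win s₁ s₂ X F₁ (π * e.1) * win s₃ s₄ X F₂ (π * e.2) else 0 with hf
  have hsum : ∑ ab ∈ PR q R, ∑ e ∈ (dedge t c (X / p)).filter (InG K κ Q X π),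
        D1 N ab.1 (labX N q s₁ s₂ s₃ s₄ X F₁ F₂ (π * e.1)) *
          D2 N ab.2 (labX N q s₁ s₂ s₃ s₄ X F₁ F₂ (π * e.2)) =
      ∑ e ∈ (dedge t c (X / p)).filter (InG K κ Q X π), ff e := by
    rw [sum_comm]
    refine sum_congr rfl fun e _ => ?_
    rw [hf]
    simp only
    rw [R_sum hR]
    refine sum_congr rfl fun ab _ => ?_
    rw [D1_lab h.cm₁, D2_lab h.cm₂]
  rw [hsum, hII, AG_eq h hR hp hpq hπ h0 h0',
    ← sum_filter_add_sum_filter_not ((dedge t c (X / p)).filter (fun e => 0 < pp e.1 e.2))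
      (InG K κ Q X π), add_sub_cancel_left]
  refine (norm_sum_le _ _).trans (le_trans ?_ hL)
  have h1 : ∀ e ∈ ((dedge t c (X / p)).filter (fun e => 0 < pp e.1 e.2)).filter
      (fun e => ¬ InG K κ Q X π e),
      ‖ff e‖ ≤ if s * (X / p) < (nm e.1 : ℝ) ∧ s * (X / p) < (nm e.2 : ℝ) then (1 : ℝ) else 0 := by
    intro e _
    rw [hf]
    simp only
    split_ifs with hr hc hc
    · rw [norm_mul]
      exact mul_le_one₀ (win_le h.cm₁ _ _ _ _) (norm_nonneg _) (win_le h.cm₂ _ _ _ _)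
    · rw [win_mul h.cm₁ hp hπ h0, win_mul h.cm₂ hp hπ h0']
      have ha : s * (X / p) ≤ s₁ * (X / p) := by
        rw [← mul_div_assoc, ← mul_div_assoc]
        exact div_le_div_of_nonneg_right hs1 hp0.le
      have hb : s * (X / p) ≤ s₃ * (X / p) := by
        rw [← mul_div_assoc, ← mul_div_assoc]
        exact div_le_div_of_nonneg_right hs3 hp0.le
      unfold win
      by_cases h2 : s₁ * (X / p) < (nm e.1 : ℝ) ∧ (nm e.1 : ℝ) ≤ s₂ * (X / p)
      · have h3 : ¬ (s₃ * (X / p) < (nm e.2 : ℝ) ∧ (nm e.2 : ℝ) ≤ s₄ * (X / p)) := by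
          intro h3
          exact hc ⟨by linarith [h2.1], by linarith [h3.1]⟩
        rw [if_neg h3]
        simp
      · rw [if_neg h2]
        simp
    · rw [norm_zero]; exact zero_le_one
    · rw [norm_zero]
  refine (sum_le_sum h1).trans ?_
  rw [sum_boole, filter_filter, filter_filter]
  refine le_of_eq ?_
  congr 2
  refine filter_congr fun e _ => ?_
  tauto

/-! ### the bilinear term -/

theorem norm_le_four {a b c d E : ℝ} (ha : |a| ≤ E) (hb : |b| ≤ E) (hc : |c| ≤ E) (hd : |d| ≤ E) :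
    ‖(((a - b : ℝ)) : ℂ) + Complex.I * (((c + d : ℝ)) : ℂ)‖ ≤ 4 * E := by
  refine (norm_add_le _ _).trans ?_
  rw [norm_mul, Complex.norm_I, one_mul, Complex.norm_real, Complex.norm_real, Real.norm_eq_abs,
    Real.norm_eq_abs]
  have h1 := abs_sub a b
  have h2 := abs_add_le c d
  linarith

open scoped Classical in
theorem bil {N : ℕ} {F₁ F₂ : Qd t c → ℂ} (hF₁ : Cm N F₁) (hF₂ : Cm N F₂) {q : ℕ} [NeZero q]
    {s₁ s₂ s₃ s₄ X : ℝ} {K : ℕ} {κ : ℝ} {Q : ℕ} {E : ℝ} (a b : Cq q)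
    (hre : ∀ α : Qd t c → ℝ, (∀ z, |α z| ≤ 1) → (∀ z, α z ≠ 0 → s₁ * X < (nm z : ℝ)) →
      |∑ e ∈ good t c K κ Q X, ∑ v ∈ cone X e.1 e.2, ∑ w ∈ cw X s₃ s₄ e.1 e.2,
        α v * cl q (rep b) (fun z => (F₂ z).re) w * th χ Q (dt v w)| ≤ E)
    (him : ∀ α : Qd t c → ℝ, (∀ z, |α z| ≤ 1) → (∀ z, α z ≠ 0 → s₁ * X < (nm z : ℝ)) →
      |∑ e ∈ good t c K κ Q X, ∑ v ∈ cone X e.1 e.2, ∑ w ∈ cw X s₃ s₄ e.1 e.2,
        α v * cl q (rep b) (fun z => (F₂ z).im) w * th χ Q (dt v w)| ≤ E) :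
    ‖∑ e ∈ good t c K κ Q X, ∑ v ∈ cone X e.1 e.2, ∑ w ∈ cone X e.1 e.2,
      D1 N a (labX N q s₁ s₂ s₃ s₄ X F₁ F₂ v) * D2 N b (labX N q s₁ s₂ s₃ s₄ X F₁ F₂ w) *
        (th χ Q (dt v w) : ℂ)‖ ≤ 4 * E := by
  set u : Qd t c → ℂ := fun v => D1 N a (labX N q s₁ s₂ s₃ s₄ X F₁ F₂ v) with hu
  have hu1 : ∀ v, ‖u v‖ ≤ 1 := fun v => D1_le hF₁.pos a _
  have hu0 : ∀ v, u v ≠ 0 → s₁ * X < (nm v : ℝ) := by
    intro v hv
    by_contra hcon
    apply hv
    rw [hu]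
    simp only
    rw [D1_lab hF₁]
    have hw0 : win s₁ s₂ X F₁ v = 0 := by
      unfold win
      rw [if_neg (fun h => hcon h.1)]
    rw [hw0, ite_self]
  have hr1 : ∀ v, |(u v).re| ≤ 1 := fun v => (Complex.abs_re_le_norm _).trans (hu1 v)
  have hi1 : ∀ v, |(u v).im| ≤ 1 := fun v => (Complex.abs_im_le_norm _).trans (hu1 v)
  have hr0 : ∀ v, (u v).re ≠ 0 → s₁ * X < (nm v : ℝ) := fun v hv => hu0 v (by
    intro h
    apply hv
    rw [h, Complex.zero_re])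
  have hi0 : ∀ v, (u v).im ≠ 0 → s₁ * X < (nm v : ℝ) := fun v hv => hu0 v (by
    intro h
    apply hv
    rw [h, Complex.zero_im])
  have a1 := hre (fun v => (u v).re) hr1 hr0
  have a2 := him (fun v => (u v).im) hi1 hi0
  have a3 := him (fun v => (u v).re) hr1 hr0
  have a4 := hre (fun v => (u v).im) hi1 hi0
  refine le_trans (le_of_eq ?_) (norm_le_four a1 a2 a3 a4)
  congr 1
  have hw : ∀ (e : Qd t c × Qd t c) (v : Qd t c), ∑ w ∈ cone X e.1 e.2,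
      u v * D2 N b (labX N q s₁ s₂ s₃ s₄ X F₁ F₂ w) * (th χ Q (dt v w) : ℂ) =
      ∑ w ∈ cw X s₃ s₄ e.1 e.2, u v * (((cl q (rep b) (fun z => (F₂ z).re) w : ℝ) : ℂ) +
        Complex.I * ((cl q (rep b) (fun z => (F₂ z).im) w : ℝ) : ℂ)) * (th χ Q (dt v w) : ℂ) := by
    intro e v
    unfold cw
    rw [sum_filter]
    refine sum_congr rfl fun w _ => ?_
    rw [D2_lab hF₂, cl_eq, cl_eq]
    unfold win
    by_cases h1 : s₃ * X < (nm w : ℝ) ∧ (nm w : ℝ) ≤ s₄ * X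
    · rw [if_pos h1, if_pos h1]
      by_cases h2 : cz q w = b
      · rw [if_pos h2, if_pos h2, if_pos h2]
        congr 2
        rw [mul_comm Complex.I]
        exact (Complex.re_add_im _).symm
      · rw [if_neg h2, if_neg h2, if_neg h2]
        simp
    · rw [if_neg h1, if_neg h1, ite_self, mul_zero, zero_mul]
  have hE : ∀ e : Qd t c × Qd t c, (∑ v ∈ cone X e.1 e.2, ∑ w ∈ cone X e.1 e.2,
      u v * D2 N b (labX N q s₁ s₂ s₃ s₄ X F₁ F₂ w) * (th χ Q (dt v w) : ℂ)) =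
      ∑ v ∈ cone X e.1 e.2, ∑ w ∈ cw X s₃ s₄ e.1 e.2,
        ((((u v).re * cl q (rep b) (fun z => (F₂ z).re) w * th χ Q (dt v w) -
          (u v).im * cl q (rep b) (fun z => (F₂ z).im) w * th χ Q (dt v w) : ℝ) : ℂ) +
        Complex.I * (((u v).re * cl q (rep b) (fun z => (F₂ z).im) w * th χ Q (dt v w) +
          (u v).im * cl q (rep b) (fun z => (F₂ z).re) w * th χ Q (dt v w) : ℝ) : ℂ)) := by
    intro e
    refine sum_congr rfl fun v _ => ?_
    rw [hw]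
    refine sum_congr rfl fun w _ => ?_
    conv_lhs => rw [← Complex.re_add_im (u v)]
    push_cast
    linear_combination (((u v).im : ℂ) * (cl q (rep b) (fun z => (F₂ z).im) w : ℂ) *
      (th χ Q (dt v w) : ℂ)) * Complex.I_sq
  rw [sum_congr rfl fun e _ => hE e]
  push_cast
  simp only [sum_add_distrib, sum_sub_distrib, mul_sum, mul_add]

end Pool.Agent.W428.EG
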